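import Mathlib
import Pool.Agent.U376.AG.AllExp
import Pool.Agent.U376.AG.Len

set_option autoImplicit false

/-! # Lenstra's condition for the groups `⟨W₀, D n ^ r⟩`, `n = b a ^ m + c`, for almost all exponents `m`

Let `a ≥ 2`, `b ≥ 1`, `c ≠ 0` be integers, `0 < θ < 1` and `ε, η > 0`.

(1) There is `X` such that for all Galois extensions `F`, all sets `C` of automorphisms, all subgroups
`W₀` of `ℚˣ` (not necessarily finitely generated), all `k ≥ 1`, `r ≥ 1`, `D ∈ ℚˣ`, all sets `S` of primes at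
which `D` is a unit, and all `K`: for all but at most `η K` of the exponents `m ≤ K` with `n = b a ^ m + c > 0`,
and for EVERY `x` with `X ≤ x ≤ K ^ θ`, the number of primes `q ≤ x` in `S` which belong to Lenstra's set
`𝒮(F, C, ⟨W₀, D n ^ r⟩, k)` differs by at most `ε π(x)` from the sum of explicit local densities.

(2) For `r = 1`, finitely generated `W₀` and conjugation-stable `C` the number of primes `q ≤ x` in
`𝒮(F, C, ⟨W₀, D n⟩, k)` differs by at most `ε π(x)` from `δ(F, C, W₀, k) π(x)`, where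
`δ(F, C, W₀, k) = ∑_j μ(j) c(j) / (q(j) [F L_j : ℚ])`, `L_j = ℚ(ζ_{q(j)}, W₀ ^ {1/q(j)})`. This is Lenstra's
series for the group generated by `W₀` and a further element which is independent of everything.

The family `n = b a ^ m + c` has only about `log N` members up to `N`.

Proof: second moment over the exponents, Jacobi sums along the subgroup generated by `a` modulo two primes;
the order of `a` modulo `q` exceeds `√x` by a power of `log x` for almost all primes `q ≤ x`, by an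
argument of Erdős. Libraries: helper171 (reduction of subgroups, limits of the local densities), helper890 and
helper893 (characters and local densities for Lenstra's condition), helper401 (density theorem of
Chebotarev), and the libraries of my result on Artin's conjecture. -/

namespace Pool.Agent.Results.MP_48b1c3_nt.ExponentialGenerators

open Finset NumberField Classical
open Pool.Agent.W171.LG (rd Un rd_ne un_iff unW_iff UnW PW GF QR)
open Pool.Agent.H981R3.LN (ql Sk)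

/-- the Frobenius conjugacy class of `q` in `G(F/ℚ)` meets `C` -/
def FrobIn (F : IntermediateField ℚ (AlgebraicClosure ℚ)) [NumberField F]
    (C : Set (F ≃ₐ[ℚ] F)) (q : ℕ) : Prop :=
  ∃ σ ∈ C, ∃ Q : Ideal (𝓞 F), Q.IsPrime ∧
    Q.comap (algebraMap ℤ (𝓞 F)) = Ideal.span {(q : ℤ)} ∧
    ∀ a b : 𝓞 F, (b : F) = σ (a : F) → b - a ^ q ∈ Q

/-- `q` is in the set `𝒮(F, C, W, k)` of Q1: the Frobenius condition, `W` consists of `q`-units, and the
index of `W` modulo `q` divides `k` -/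
def InS (F : IntermediateField ℚ (AlgebraicClosure ℚ)) [NumberField F]
    (C : Set (F ≃ₐ[ℚ] F)) (W : Subgroup ℚˣ) (k q : ℕ) : Prop :=
  FrobIn F C q ∧ (∀ w ∈ W, padicValRat q (w : ℚ) = 0) ∧
    (Subgroup.closure {u : (ZMod q)ˣ | ∃ w ∈ W,
      (((w : ℚ).num : ℤ) : ZMod q) = (u : ZMod q) * (((w : ℚ).den : ℕ) : ZMod q)}).index ∣ k

/-- the group `⟨W₀, D n ^ r⟩` -/
def grp (W₀ : Subgroup ℚˣ) (D : ℚˣ) (n r : ℕ) : Subgroup ℚˣ :=
  W₀ ⊔ Subgroup.closure {w : ℚˣ | (w : ℚ) = (D : ℚ) * (n : ℚ) ^ r}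

/-- the number of primes `q ≤ x` in `S` which belong to `𝒮(F, C, W, k)` -/
noncomputable def count (F : IntermediateField ℚ (AlgebraicClosure ℚ)) [NumberField F]
    (C : Set (F ≃ₐ[ℚ] F)) (W : Subgroup ℚˣ) (k : ℕ) (S : Set ℕ) (x : ℕ) : ℕ :=
  ((Finset.range (x + 1)).filter (fun q : ℕ => q.Prime ∧ q ∈ S ∧ InS F C W k q)).card

/-- the reduction of `w` modulo `q` is a `d`-th power -/
def IsPow (q d : ℕ) (w : ℚˣ) : Prop :=
  ∃ y : ZMod q, (((w : ℚ).num : ℤ) : ZMod q) = y ^ d * (((w : ℚ).den : ℕ) : ZMod q)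

/-- the local factor at the prime `l`; here `Q = l ^ (ν_l(k) + 1)`. It is `1` unless `Q ∣ q - 1` and all
elements of `W₀` are `Q`-th powers modulo `q`; in this case it is `1 - g/Q` with `g = gcd(r, Q)` if `D`
is a `g`-th power modulo `q`, and `1` otherwise -/
noncomputable def factor (W₀ : Subgroup ℚˣ) (k : ℕ) (D : ℚˣ) (r q l : ℕ) : ℝ :=
  if l ^ (k.factorization l + 1) ∣ q - 1 ∧ ∀ w ∈ W₀, IsPow q (l ^ (k.factorization l + 1)) w then
    1 - (if IsPow q (Nat.gcd r (l ^ (k.factorization l + 1))) D then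
      (Nat.gcd r (l ^ (k.factorization l + 1)) : ℝ) / (l ^ (k.factorization l + 1) : ℕ) else 0)
  else 1

/-- the local density at `q`: the product of the local factors over the primes `l ∣ q - 1` if the
Frobenius class of `q` meets `C` and `W₀` consists of `q`-units, `0` otherwise -/
noncomputable def loc (F : IntermediateField ℚ (AlgebraicClosure ℚ)) [NumberField F]
    (C : Set (F ≃ₐ[ℚ] F)) (W₀ : Subgroup ℚˣ) (k : ℕ) (D : ℚˣ) (r q : ℕ) : ℝ :=
  if FrobIn F C q ∧ ∀ w ∈ W₀, padicValRat q (w : ℚ) = 0 then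
    ∏ l ∈ (q - 1).primeFactors, factor W₀ k D r q l else 0

/-- the sum of the local densities over the primes `q ≤ x` in `S` -/
noncomputable def locSum (F : IntermediateField ℚ (AlgebraicClosure ℚ)) [NumberField F]
    (C : Set (F ≃ₐ[ℚ] F)) (W₀ : Subgroup ℚˣ) (k : ℕ) (D : ℚˣ) (r : ℕ) (S : Set ℕ) (x : ℕ) : ℝ :=
  ∑ q ∈ (Finset.range (x + 1)).filter (fun q : ℕ => q.Prime ∧ q ∈ S), loc F C W₀ k D r q

/-- Lenstra's series for `W₀` and one further independent element: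
`∑_j μ(j) c(j) / (q(j) [F L_j : ℚ])` with `q(j) = ∏_{l ∣ j} l ^ (ν_l(k) + 1)`,
`L_j = ℚ(ζ_{q(j)}, W₀ ^ {1/q(j)})`, and `c(j)` the number of the `σ ∈ C` which fix `F ∩ L_j` -/
noncomputable def δ (F : IntermediateField ℚ (AlgebraicClosure ℚ)) [NumberField F]
    (C : Set (F ≃ₐ[ℚ] F)) (W₀ : Subgroup ℚˣ) (k : ℕ) : ℝ :=
  ∑' j : ℕ, (ArithmeticFunction.moebius j : ℝ) *
    (Nat.card {σ : F ≃ₐ[ℚ] F // σ ∈ C ∧ ∀ y : F,
        (y : AlgebraicClosure ℚ) ∈ IntermediateField.adjoin ℚ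
          {z : AlgebraicClosure ℚ | ∃ w ∈ W₀,
            z ^ (∏ l ∈ j.primeFactors, l ^ (k.factorization l + 1)) =
              algebraMap ℚ (AlgebraicClosure ℚ) (w : ℚ)} → σ y = y} : ℝ) /
    (((∏ l ∈ j.primeFactors, l ^ (k.factorization l + 1) : ℕ) : ℝ) *
      (Module.finrank ℚ ↥(F ⊔ IntermediateField.adjoin ℚ
          {z : AlgebraicClosure ℚ | ∃ w ∈ W₀,
            z ^ (∏ l ∈ j.primeFactors, l ^ (k.factorization l + 1)) =
              algebraMap ℚ (AlgebraicClosure ℚ) (w : ℚ)}) : ℝ))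

lemma isPow_iff {q : ℕ} [Fact q.Prime] {w : ℚˣ} (h : Un q (w : ℚ)) (d : ℕ) :
    IsPow q d w ↔ ∃ y : ZMod q, y ^ d = rd q (w : ℚ) := by
  unfold IsPow rd
  refine exists_congr fun y => ?_
  rw [eq_mul_inv_iff_mul_eq₀ h.2]
  exact eq_comm

open Pool.Agent.TH893.JO in
lemma loc_eq (F : IntermediateField ℚ (AlgebraicClosure ℚ)) [NumberField F] [IsGalois ℚ F]
    (C : Set (F ≃ₐ[ℚ] F)) (W₀ : Subgroup ℚˣ) (k : ℕ) (D : ℚˣ) (r : ℕ) {q : ℕ} (hq : q.Prime)
    (hD : padicValRat q (D : ℚ) = 0) :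
    loc F C W₀ k D r q = Pool.Agent.TH890.AS.dens q (QR F C W₀ k D r q) := by
  classical
  have : Fact q.Prime := ⟨hq⟩
  have hUD : Un q (D : ℚ) := (un_iff D.ne_zero).2 hD
  rw [dens_QR]
  unfold loc
  by_cases hW : UnW W₀ q
  · have hW' : ∀ w ∈ W₀, padicValRat q (w : ℚ) = 0 := (unW_iff W₀).1 hW
    by_cases hG : FrobIn F C q
    · have hG' : GF F C q := hG
      rw [if_pos ⟨hG, hW'⟩, if_pos ⟨hG', hW, hUD⟩]
      unfold LL Sk
      rw [filter_filter, prod_filter]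
      refine prod_congr rfl fun l hl => ?_
      unfold factor
      have e1 : (ql k l ∣ q - 1 ∧ PW W₀ (ql k l) q) ↔ (l ^ (k.factorization l + 1) ∣ q - 1 ∧
          ∀ w ∈ W₀, IsPow q (l ^ (k.factorization l + 1)) w) := by
        change (ql k l ∣ q - 1 ∧ PW W₀ (ql k l) q) ↔ (ql k l ∣ q - 1 ∧ ∀ w ∈ W₀, IsPow q (ql k l) w)
        refine and_congr_right fun hd => ?_
        unfold PW
        constructor
        · rintro ⟨-, h⟩ w hw
          rw [isPow_iff (hW w hw), ← zpow_iff (rd_ne (hW w hw)) hd]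
          exact h w hw
        · intro h
          refine ⟨hd, fun w hw => ?_⟩
          rw [zpow_iff (rd_ne (hW w hw)) hd, ← isPow_iff (hW w hw)]
          exact h w hw
      by_cases hc : ql k l ∣ q - 1 ∧ PW W₀ (ql k l) q
      · rw [if_pos hc, if_pos (e1.1 hc)]
        congr 1
        unfold PD
        have e2 : IsPow q (Nat.gcd r (l ^ (k.factorization l + 1))) D ↔
            ∃ y : ZMod q, y ^ Nat.gcd r (ql k l) = rd q (D : ℚ) := isPow_iff hUD _
        by_cases hP : IsPow q (Nat.gcd r (l ^ (k.factorization l + 1))) D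
        · rw [if_pos hP, if_pos (e2.1 hP)]
          rfl
        · rw [if_neg hP, if_neg (fun h => hP (e2.2 h))]
      · rw [if_neg hc, if_neg (fun h => hc (e1.2 h))]
    · rw [if_neg (fun h => hG h.1), if_neg (fun h => hG h.1)]
  · rw [if_neg (fun h => hW ((unW_iff W₀).2 h.2)), if_neg (fun h => hW h.2.1)]

theorem result (a b : ℕ) (c : ℤ) (ha : 2 ≤ a) (hb : 0 < b) (hc : c ≠ 0) (θ : ℝ) (hθ : 0 < θ) (hθ' : θ < 1)
    (ε η : ℝ) (hε : 0 < ε) (hη : 0 < η) :
    (∃ X : ℕ, ∀ (F : IntermediateField ℚ (AlgebraicClosure ℚ)) [NumberField F] [IsGalois ℚ F]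
        (C : Set (F ≃ₐ[ℚ] F)) (W₀ : Subgroup ℚˣ) (k : ℕ) (D : ℚˣ) (r : ℕ) (S : Set ℕ), 0 < k → 0 < r →
        (∀ q ∈ S, padicValRat q (D : ℚ) = 0) → ∀ K : ℕ,
        (((Finset.Icc 1 K).filter (fun m : ℕ => ∃ n : ℕ, 0 < n ∧ (n : ℤ) = b * (a : ℤ) ^ m + c ∧
          ∃ x : ℕ, X ≤ x ∧ (x : ℝ) ≤ (K : ℝ) ^ θ ∧
            ε * (Nat.primeCounting x : ℝ) <
              |(count F C (grp W₀ D n r) k S x : ℝ) - locSum F C W₀ k D r S x|)).card : ℝ) ≤ η * K) ∧
    ∀ (F : IntermediateField ℚ (AlgebraicClosure ℚ)) [NumberField F] [IsGalois ℚ F]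
      (C : Set (F ≃ₐ[ℚ] F)) (W₀ : Subgroup ℚˣ) (k : ℕ) (D : ℚˣ),
      (∀ σ ∈ C, ∀ τ : F ≃ₐ[ℚ] F, τ * σ * τ⁻¹ ∈ C) → W₀.FG → 0 < k → ∃ X : ℕ, ∀ K : ℕ,
        (((Finset.Icc 1 K).filter (fun m : ℕ => ∃ n : ℕ, 0 < n ∧ (n : ℤ) = b * (a : ℤ) ^ m + c ∧
          ∃ x : ℕ, X ≤ x ∧ (x : ℝ) ≤ (K : ℝ) ^ θ ∧
            ε * (Nat.primeCounting x : ℝ) <
              |(count F C (grp W₀ D n 1) k Set.univ x : ℝ) -
                δ F C W₀ k * (Nat.primeCounting x : ℝ)|)).card : ℝ) ≤ η * K := by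
  have hH := Pool.Agent.U376.AG.hyp_all a (b : ℤ) c ha (by exact_mod_cast hb.ne') hc θ hθ hθ'
  have hbound : ∀ (K : ℕ) (s : Finset ℕ), 0 < K → (s.card : ℝ) ≤ η / 2 * ((K + 1 : ℕ) : ℝ) →
      (s.card : ℝ) ≤ η * K := by
    intro K s hK0 hs
    have hK : (1 : ℝ) ≤ K := by exact_mod_cast hK0
    push_cast at hs
    nlinarith
  have hcount : ∀ (F : IntermediateField ℚ (AlgebraicClosure ℚ)) [NumberField F]
      (C : Set (F ≃ₐ[ℚ] F)) (W : Subgroup ℚˣ) (k : ℕ) (S : Set ℕ) (x : ℕ), count F C W k S x =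
      ((Pool.Agent.U376.AK.PY x).filter (fun p => p ∈ S ∧ Pool.Agent.W171.LG.LC F C k W p)).card := by
    intro F _ C W k S x
    unfold count
    rw [Pool.Agent.U376.AK.PY_eq, filter_filter]
    rfl
  constructor
  · obtain ⟨X, hX⟩ := Pool.Agent.U376.AG.len_fam hH ε (η / 2) hε (by positivity)
    refine ⟨X, fun F _ _ C W₀ k D r S hk hr hD K => ?_⟩
    rcases Nat.eq_zero_or_pos K with rfl | hK0
    · simp
    refine le_trans ?_ (hbound K _ hK0 (hX F C W₀ k D r S hk.ne' hr.ne' hD K))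
    have hloc : ∀ x : ℕ, locSum F C W₀ k D r S x =
        ∑ p ∈ (Pool.Agent.U376.AK.PY x).filter (fun p => p ∈ S),
          Pool.Agent.TH890.AS.dens p (QR F C W₀ k D r p) := by
      intro x
      unfold locSum
      rw [Pool.Agent.U376.AK.PY_eq, filter_filter]
      refine sum_congr rfl fun p hp => ?_
      rw [mem_filter] at hp
      exact loc_eq F C W₀ k D r hp.2.1 (hD p hp.2.2)
    refine Nat.cast_le.2 (card_le_card ?_)
    intro m hm
    rw [mem_filter] at hm ⊢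
    obtain ⟨hmE, n, hn0, hn, x, hx1, hx2, hx3⟩ := hm
    rw [hcount, hloc] at hx3
    exact ⟨Finset.mem_range.2 (by rw [Finset.mem_Icc] at hmE; omega), n, hn0.ne', hn, x, hx1, hx2, hx3⟩
  · intro F _ _ C W₀ k D hC hW₀ hk
    obtain ⟨X, hX⟩ := Pool.Agent.U376.AG.len_lim_fam hH ε (η / 2) hε (by positivity) F C W₀ k D hk.ne' hC hW₀
    refine ⟨X, fun K => ?_⟩
    rcases Nat.eq_zero_or_pos K with rfl | hK0
    · simp
    refine le_trans ?_ (hbound K _ hK0 (hX K))
    refine Nat.cast_le.2 (card_le_card ?_)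
    intro m hm
    rw [mem_filter] at hm ⊢
    obtain ⟨hmE, n, hn0, hn, x, hx1, hx2, hx3⟩ := hm
    have h1 : count F C (grp W₀ D n 1) k Set.univ x =
        ((Pool.Agent.U376.AK.PY x).filter (fun p => Pool.Agent.W171.LG.LC F C k (grp W₀ D n 1) p)).card := by
      rw [hcount]
      apply congrArg
      ext p
      simp only [mem_filter, Set.mem_univ, true_and]
    rw [h1] at hx3
    exact ⟨Finset.mem_range.2 (by rw [Finset.mem_Icc] at hmE; omega), n, hn0.ne', hn, x, hx1, hx2, hx3⟩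

end Pool.Agent.Results.MP_48b1c3_nt.ExponentialGenerators
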