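import Pool.Agent.U581.FL.LenVar
import Pool.Agent.U581.FL.Run

/-!
# An invariance principle for the primes with Lenstra's condition

Lenstra's set `𝒮(F, C, W, k)` consists of the primes `q` with Frobenius class in `C` such that `W` consists of units modulo `q` and
the index of `W` modulo `q` divides `k`.  We consider the groups `W = ⟨a_1, ..., a_r⟩` generated by random integers with
`|a_j| ≤ H`.  The set of the primes `q ≤ y` with Frobenius class in `C` is here an arbitrary finite set `T` of primes.  We study the
number of the primes with the index condition among the `m` smallest members of `T` as a function of `m ≤ |T|`: the difference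
to its expected value, the sum of the local densities `d_q`, divided by the square root of the variance `∑ d_q (1 - d_q)`, the sum over
all `q ∈ T`, gives a random polygonal path on `[0, 1]`.

* **(A)** This path has, as a random element of the space of continuous functions on `[0, 1]`, approximately the law of a Brownian
  motion run by the clock given by the partial sums of the variances, if the variance is at least `δ |T|`,
  `|T|` is large and `H ≥ y ^ K`: uniformly in `T` and in `k`.
* **(B)** For fixed `r` and `k` the condition on the variance holds for all sets `T` of primes up to `y` which contain a positive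
  proportion of primes `≡ 1` modulo `2 ^ (v + 1)`, where `2 ^ v` is the exact power of `2` dividing `k`.
-/

set_option autoImplicit false

namespace Pool.Agent.Results.MP_48b1c3_nt.InvariancePrinciple

open Finset MeasureTheory ProbabilityTheory
open scoped BoundedContinuousFunction NNReal

/-- The index of the image of `⟨a_1, ..., a_r⟩` in the group of units modulo `q`. -/
noncomputable def index {r : ℕ} (a : Fin r → ℤ) (q : ℕ) : ℕ :=
  (Subgroup.closure {u : (ZMod q)ˣ | ∃ j, (u : ZMod q) = ((a j : ℤ) : ZMod q)}).index

/-- Lenstra's condition at `q`: all `a_j` are units at `q`, and the index divides `k`. -/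
def Condition {r : ℕ} (k q : ℕ) (a : Fin r → ℤ) : Prop := (∀ j, ¬ (q : ℤ) ∣ a j) ∧ index a q ∣ k

open scoped Classical in
/-- `1` if Lenstra's condition holds at `q`, and `0` otherwise. -/
noncomputable def indicator {r : ℕ} (k q : ℕ) (a : Fin r → ℤ) : ℝ := if Condition k q a then 1 else 0

open scoped Classical in
/-- The local density: the proportion of the `r`-tuples of residues modulo `q` with the condition. -/
noncomputable def density (r k q : ℕ) : ℝ :=
  (((Fintype.piFinset fun _ : Fin r => range q).filter fun t => Condition k q fun l => (t l : ℤ)).card : ℝ) / (q : ℝ) ^ r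

/-- The variance of the model of independent primes. -/
noncomputable def variance (r k : ℕ) (T : Finset ℕ) : ℝ := ∑ q ∈ T, density r k q * (1 - density r k q)

/-- The polygonal path of the partial sums of `g(q)` over the primes `q ∈ T` in increasing order, divided by `s`: the factor of
the term of `q` is `0` for `|T| t ≤ i` and `1` for `|T| t ≥ i + 1`, where `i` is the number of the members of `T` which are smaller
than `q`, and it is linear in between. At the time `m / |T|` the path is `1 / s` times the sum over the `m` smallest members of `T`. -/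
noncomputable def path (T : Finset ℕ) (s : ℝ) (g : ℕ → ℝ) : C(unitInterval, ℝ) where
  toFun t := (∑ q ∈ T, g q * max 0 (min 1 (T.card * (t : ℝ) - (T.filter (fun p => p < q)).card))) / s
  continuous_toFun := by fun_prop

/-- The mean value of `f` over the integer vectors `a` with coordinates of absolute value at most `H`. -/
noncomputable def average {r : ℕ} (H : ℕ) (f : (Fin r → ℤ) → ℝ) : ℝ :=
  (∑ a ∈ Fintype.piFinset (fun _ : Fin r => Finset.Icc (-(H : ℤ)) H), f a) / (2 * H + 1 : ℝ) ^ r

/-- The function `t ↦ B (τ t)` on `[0, 1]` as a continuous function (and `0` if it is not continuous). -/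
noncomputable def runPath {Ω : Type} (B : ℝ≥0 → Ω → ℝ) (τ : C(unitInterval, ℝ)) (ω : Ω) : C(unitInterval, ℝ) :=
  ContinuousMap.mkD (fun t : unitInterval => B (τ t).toNNReal ω) 0

theorem average_eq {n : ℕ} (H : ℕ) (f : (Fin n → ℤ) → ℝ) : average H f = Pool.Agent.Y722.HS.EB H f := by
  unfold average Pool.Agent.Y722.HS.EB Pool.Agent.Y722.HS.box Pool.Agent.Y722.HS.IH
  rw [Fintype.card_fin]

theorem path_eq (P : Finset ℕ) (s : ℝ) (g : ℕ → ℝ) : path P s g = Pool.Agent.U581.FL.ppath P s g := by
  ext t
  rw [Pool.Agent.U581.FL.ppath_apply]
  rfl

theorem indicator_per {r : ℕ} (k q : ℕ) : Pool.Agent.U62.RB.PerF (indicator (r := r) k q) q := by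
  intro c c' h
  have h1 : Condition k q c ↔ Condition k q c' :=
    ⟨fun hc => Pool.Agent.U62.RB.InS_per k q c c' h hc, fun hc => Pool.Agent.U62.RB.InS_per k q c' c
      (fun i => by
        have := h i
        rwa [← dvd_neg, neg_sub] at this) hc⟩
  unfold indicator
  by_cases hc : Condition k q c
  · rw [if_pos hc, if_pos (h1.1 hc)]
  · rw [if_neg hc, if_neg fun h2 => hc (h1.2 h2)]

theorem indicator_mean (r k q : ℕ) :
    Pool.Agent.U62.RB.lmean (indicator (r := r) k q) q = density r k q := by
  classical
  unfold Pool.Agent.U62.RB.lmean density indicator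
  congr 1
  rw [Finset.sum_boole]

theorem indicator_var (r k q : ℕ) :
    Pool.Agent.U62.RB.lvar (indicator (r := r) k q) q = density r k q * (1 - density r k q) := by
  unfold Pool.Agent.U62.RB.lvar
  have e : (fun c => indicator (r := r) k q c ^ 2) = indicator k q := by
    funext c
    unfold indicator
    split_ifs <;> norm_num
  rw [e, indicator_mean]
  ring

/-- **The invariance principle for Lenstra's condition.** Let `B` be a Brownian motion and `F` a bounded continuous function on the
space of the continuous functions on `[0, 1]`. (A) For all `r`, `δ > 0` and `ε > 0` there is a `K` with the following property. Let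
`k` be arbitrary, `T` a set of at least `K` primes `q ≤ y` with `variance r k T ≥ δ |T|`, and `H ≥ y ^ K`. Then the mean value
over the `a ∈ ℤ ^ r`, `|a_j| ≤ H`, of `F` at the polygonal path of the partial sums of `(indicator - density) / (variance) ^ (1/2)`
differs by at most `ε` from the expectation of `F` at the path `t ↦ B (τ(t))`, where `τ` is the polygonal path of the
partial sums of the variances, divided by `variance r k T`. (B) For all `r, k ≥ 1` and `κ > 0` there are `δ > 0` and `y₀`
such that `variance r k T ≥ δ |T|` for all `y ≥ y₀` and all sets `T` of primes `q ≤ y` which have at least `κ π(y)` members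
`≡ 1` modulo `2 ^ (v + 1)`, where `v` is the exponent of `2` in `k`. -/
theorem result {Ω : Type} [MeasurableSpace Ω] (μ : Measure Ω) [IsProbabilityMeasure μ] (B : ℝ≥0 → Ω → ℝ)
    (hB : IsBrownianReal B μ) (F : C(unitInterval, ℝ) →ᵇ ℝ) :
    (∀ (r : ℕ) (δ ε : ℝ), 0 < δ → 0 < ε → ∃ K : ℕ, ∀ (k : ℕ) (T : Finset ℕ) (y H : ℕ),
      (∀ q ∈ T, q.Prime ∧ q ≤ y) → K ≤ T.card → δ * T.card ≤ variance r k T → y ^ K ≤ H →
      |average H (fun a : Fin r → ℤ => F (path T (√(variance r k T)) fun q => indicator k q a - density r k q)) -
        ∫ ω, F (runPath B (path T (variance r k T) fun q => density r k q * (1 - density r k q)) ω) ∂μ| ≤ ε) ∧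
    (∀ (r k : ℕ) (κ : ℝ), 1 ≤ r → 1 ≤ k → 0 < κ → ∃ δ : ℝ, 0 < δ ∧ ∃ y₀ : ℕ, ∀ (y : ℕ) (T : Finset ℕ), y₀ ≤ y →
      (∀ q ∈ T, q.Prime ∧ q ≤ y) →
      κ * Nat.primeCounting y ≤ ((T.filter fun q => 2 ^ (k.factorization 2 + 1) ∣ q - 1).card : ℝ) →
      δ * T.card ≤ variance r k T) := by
  letI : MeasurableSpace C(unitInterval, ℝ) := borel _
  haveI : BorelSpace C(unitInterval, ℝ) := ⟨rfl⟩
  refine ⟨fun r δ ε hδ hε => ?_, fun r k κ hr hk hκ => ?_⟩
  · obtain ⟨K, hK⟩ := Pool.Agent.U581.FL.prof_run r one_pos hδ hB F hε
    refine ⟨K, fun k T y H hT hc hV hH => ?_⟩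
    have e3 : Pool.Agent.U581.FL.totV (fun q => indicator (r := r) k q) T = variance r k T :=
      Finset.sum_congr rfl fun q _ => indicator_var r k q
    have h := hK (fun q => indicator k q) T y H hT hc (fun q _ => indicator_per k q)
      (fun q _ c => by
        unfold indicator
        split_ifs <;> norm_num) (by rw [e3]; exact hV) hH
    simp only [indicator_mean, indicator_var, e3] at h
    rw [average_eq]
    simp only [path_eq]
    exact h
  · obtain ⟨δ, hδ, y₀, h⟩ := Pool.Agent.U581.FL.var_lower r k hr (by omega) hκ
    exact ⟨δ, hδ, y₀, fun y T hy hT hc => h y hy T hT hc⟩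

end Pool.Agent.Results.MP_48b1c3_nt.InvariancePrinciple
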