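import Pool.Agent.U289.GX.Neg2

/-!
# Lenstra's condition for all groups outside ONE exceptional set, simultaneously

The set `𝒮(F, C, W, κ)` of the question is considered for cyclotomic fields `F` and `C = {σ_a}`. The starting
theorem `StringsFewExceptions` treats one modulus, one `κ` and one group `W` at a time, for all but boundedly many `W`
of a family. Here there is one exceptional set `E`, which depends only on a compatible system of residue classes
(that is, on a point of the profinite units), and for ALL finite sets of groups outside `E`, ALL `κ` and ALL moduli of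
the system there are infinitely many strings of consecutive primes which are in all the corresponding sets
`𝒮(F, {σ_a}, W, κ)` at the same time.

Proof. Modulo the primes of a string (library `R498.MX.strings`) the groups of a family any `h` of which generate a
group of rank `≥ R` have, with at most `C (h - 1)` exceptions, an index without prime factors that do not divide the
modulus; this is true for all strings outside a set that is smaller by a factor `log N` (library `gmfamX`). An
ultrafilter on the triples (level, `N`, string) which contains all complements of such small sets for all large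
levels gives the set `E`: the groups that are exceptional for almost all strings in the sense of the ultrafilter.
-/

set_option autoImplicit false

namespace Pool.Agent.Results.MP_48b1c3_nt.OneExceptionalSet

open Finset Filter

/-- The classes of all elements of `W` are units modulo `q`. -/
def Units (W : Subgroup ℚˣ) (q : ℕ) : Prop := ∀ w ∈ W, padicValRat q (w : ℚ) = 0

/-- The index of the image of `W` in the group of the units modulo `q`. -/
noncomputable def index (W : Subgroup ℚˣ) (q : ℕ) : ℕ :=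
  (Subgroup.closure {u : (ZMod q)ˣ | ∃ w ∈ W, (((w : ℚ).num : ℤ) : ZMod q) =
      (u : ZMod q) * (((w : ℚ).den : ℕ) : ZMod q)}).index

/-- The prime `q` is in the set `𝒮(F, C, W, κ)` for the `m`-th cyclotomic field `F` and `C = {σ_a}`. -/
def InS (m a κ : ℕ) (W : Subgroup ℚˣ) (q : ℕ) : Prop :=
  q.Prime ∧ q ≡ a [MOD m] ∧ Units W q ∧ index W q ∣ κ

/-- The rank of `V` is at least `R`. -/
def RankGE (R : ℕ) (V : Subgroup ℚˣ) : Prop :=
  ∃ b : Fin R → ℚˣ, (∀ j, b j ∈ V) ∧ ∀ e : Fin R → ℤ, ∏ j, b j ^ e j = 1 → ∀ j, e j = 0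

/-- `E` is a small set of finitely generated groups: for every `h ≥ 1` it contains at most `C (h - 1)` members of any
family of groups any `h` of which generate a group of rank at least `R`. -/
def Thin (R C : ℕ) (E : Set (Subgroup ℚˣ)) : Prop :=
  (∀ V ∈ E, V.FG) ∧ ∀ h : ℕ, 1 ≤ h → ∀ J : Finset (Subgroup ℚˣ), (J : Set (Subgroup ℚˣ)) ⊆ E →
    (∀ I ⊆ J, I.card = h → RankGE R (sSup (I : Set (Subgroup ℚˣ)))) → J.card ≤ C * (h - 1)

/-- A compatible system of reduced residue classes `a i` modulo `m i`. -/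
structure IsSystem (m a : ℕ → ℕ) : Prop where
  pos : ∀ i, 0 < m i
  dvd : ∀ i, m i ∣ m (i + 1)
  coprime : ∀ i, (a i).Coprime (m i)
  compatible : ∀ i, a (i + 1) ≡ a i [MOD m i]

/-- The condition at the odd primes: for all large `i` and all odd primes `l` dividing `m i`, `a i` is not `≡ 1`
modulo the greatest common divisor of `m i` and `l ^ (v_l(κ) + 1)`. -/
def OddCondition (m a : ℕ → ℕ) (κ : ℕ) : Prop :=
  ∃ i₀ : ℕ, ∀ i ≥ i₀, ∀ l : ℕ, l.Prime → l ≠ 2 → l ∣ m i →
    ¬ a i ≡ 1 [MOD Nat.gcd (m i) (l ^ (κ.factorization l + 1))]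

/-- The condition at the prime `2` for the group `W`: for some `i`, at all large primes `q ≡ a i` modulo `m i` the
group `W` contains a non-square, or `a i` is not `≡ 1` modulo the greatest common divisor of `m i` and
`2 ^ (v_2(κ) + 1)`. -/
def TwoCondition (m a : ℕ → ℕ) (κ : ℕ) (W : Subgroup ℚˣ) : Prop :=
  (∃ i N₀ : ℕ, ∀ q : ℕ, N₀ < q → q.Prime → q ≡ a i [MOD m i] →
    ∃ w ∈ W, ¬ IsSquare (((w : ℚ).num * (w : ℚ).den : ℤ) : ZMod q)) ∨
  ∃ i, ¬ a i ≡ 1 [MOD Nat.gcd (m i) (2 ^ (κ.factorization 2 + 1))]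

open Classical in
/-- For arbitrarily large `N` there are at least `N / (log N) ^ B` integers `n` in `(N, 2 N]` such that `[n, n + S]`
contains more than `r` primes and all primes of this interval have the property `P`. -/
def ManyStrings (r B S : ℕ) (P : ℕ → Prop) : Prop :=
  ∀ A : ℕ, ∃ N ≥ A, (N : ℝ) ≤ Real.log N ^ B * #{n ∈ Ioc N (2 * N) |
    r < #{p ∈ Icc n (n + S) | p.Prime} ∧ ∀ p ∈ Icc n (n + S), p.Prime → P p}

/-- **One exceptional set.** For every `r` there are `R`, `C` and `B` such that: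
(1) For every compatible system of reduced residue classes `a i` modulo `m i` there is one small set `E` of
finitely generated groups of rational numbers such that for all `κ ≥ 1` with the condition at the odd primes,
all finite sets `F` of finitely generated groups outside `E` with the condition at `2`, and all `i`, there are for
some `S` many strings of more than `r` primes in `[n, n + S]` all of which are in
`𝒮(ℚ(ζ_(m i)), {σ_(a i)}, W, κ)` for all `W` in `F`.
(2) There is one small set `E` of finitely generated groups such that for all finite sets `F` of finitely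
generated groups outside `E` and all `m ≥ 1` there are for some `S` many strings of more than `r` primes `p` in
`[n, n + S]`, all of them `≡ -1` modulo `m`, such that all `W` in `F` consist of units modulo `p` and the index
of `W` is exactly `1` if `W` contains a negative number, and exactly `2` otherwise. -/
theorem result (r : ℕ) : ∃ R C B : ℕ,
    (∀ m a : ℕ → ℕ, IsSystem m a → ∃ E : Set (Subgroup ℚˣ), Thin R C E ∧
      ∀ κ : ℕ, 0 < κ → OddCondition m a κ →
      ∀ F : Finset (Subgroup ℚˣ), (∀ W ∈ F, W.FG ∧ W ∉ E ∧ TwoCondition m a κ W) →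
      ∀ i : ℕ, ∃ S : ℕ, ManyStrings r B S
        (fun p => p ≡ a i [MOD m i] ∧ ∀ W ∈ F, InS (m i) (a i) κ W p)) ∧
    (∃ E : Set (Subgroup ℚˣ), Thin R C E ∧
      ∀ F : Finset (Subgroup ℚˣ), (∀ W ∈ F, W.FG ∧ W ∉ E) → ∀ m : ℕ, 0 < m → ∃ S : ℕ, ManyStrings r B S
        (fun p => m ∣ p + 1 ∧ ∀ W ∈ F, Units W p ∧
          ((∃ w ∈ W, (w : ℚ) < 0) → index W p = 1) ∧ ((¬ ∃ w ∈ W, (w : ℚ) < 0) → index W p = 2))) := by
  obtain ⟨R, C, B, hmain⟩ := Pool.Agent.U289.GX.main r
  refine ⟨R, C, B, ?_, ?_⟩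
  · intro m a hma
    obtain ⟨E, hE1, hE2, hE3⟩ := hmain m a hma.pos hma.dvd hma.coprime hma.compatible
    refine ⟨E, ⟨hE2, hE1⟩, fun κ hκ ⟨i₀, hodd⟩ F hF i => ?_⟩
    obtain ⟨S, hS⟩ := hE3 κ hκ i₀ hodd F hF i
    refine ⟨S, fun A => ?_⟩
    obtain ⟨N, hNA, hN⟩ := (frequently_atTop.1 hS) A
    refine ⟨N, hNA, hN.trans ?_⟩
    have hl : 0 ≤ Real.log N := Real.log_natCast_nonneg N
    apply mul_le_mul_of_nonneg_left _ (by positivity)
    norm_cast
    refine Pool.Agent.U289.GX.cnt_le_card fun n hn h => ?_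
    simp only [mem_filter]
    refine ⟨hn, ?_, fun p hp hpp => ?_⟩
    · convert h.1
    · obtain ⟨h1, h2⟩ := h.2 p hp hpp
      exact ⟨h1, fun W hW => ⟨hpp, h1, Pool.Agent.R498.MX.val_zero p hpp W (h2 W hW).1, (h2 W hW).2⟩⟩
  · obtain ⟨m, hm⟩ : ∃ m : ℕ → ℕ, ∀ i, m i = (i + 4).factorial := ⟨_, fun _ => rfl⟩
    obtain ⟨a, ha⟩ : ∃ a : ℕ → ℕ, ∀ i, a i = m i - 1 := ⟨_, fun _ => rfl⟩
    have hm0 : ∀ i, 0 < m i := fun i => by rw [hm]; exact Nat.factorial_pos _
    have ha1 : ∀ i, a i + 1 = m i := fun i => by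
      have := hm0 i
      rw [ha]
      omega
    have hdvd : ∀ i, m i ∣ m (i + 1) := fun i => by
      rw [hm, hm]
      exact Nat.factorial_dvd_factorial (by omega)
    have hcomp : ∀ i, a (i + 1) ≡ a i [MOD m i] := by
      intro i
      apply Nat.ModEq.add_right_cancel' 1
      rw [ha1, ha1]
      exact ((Nat.modEq_zero_iff_dvd).2 (hdvd i)).trans ((Nat.modEq_zero_iff_dvd).2 dvd_rfl).symm
    have hcop : ∀ i, (a i).Coprime (m i) := by
      intro i
      rw [← ha1 i]
      exact (Nat.coprime_self_add_right).2 (Nat.coprime_one_right _)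
    obtain ⟨E, hE1, hE2, hE3⟩ := hmain m a hm0 hdvd hcop hcomp
    refine ⟨E, ⟨hE2, hE1⟩, fun F hF M hM => ?_⟩
    -- generators and negative elements
    have hgen : ∀ W : Subgroup ℚˣ, ∃ (Gs : Finset ℚˣ) (D : ℕ), W ∈ F →
        Subgroup.closure (Gs : Set ℚˣ) = W ∧ (∀ w ∈ Gs, 4 * ((w : ℚ).num * (w : ℚ).den).natAbs ≤ D) ∧
        ((∃ w ∈ W, (w : ℚ) < 0) →
          ∃ w ∈ W, (w : ℚ) < 0 ∧ 4 * ((w : ℚ).num * (w : ℚ).den).natAbs ≤ D) := by
      intro W
      by_cases hW : W ∈ F
      · obtain ⟨Gs, hGs⟩ := (hF W hW).1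
        by_cases hneg : ∃ w ∈ W, (w : ℚ) < 0
        · obtain ⟨w₀, hw₀, hw₀n⟩ := hneg
          refine ⟨Gs, ∑ w ∈ Gs, 4 * ((w : ℚ).num * (w : ℚ).den).natAbs +
            4 * ((w₀ : ℚ).num * (w₀ : ℚ).den).natAbs, fun _ => ⟨hGs, fun w hw => ?_, fun _ =>
              ⟨w₀, hw₀, hw₀n, by omega⟩⟩⟩
          have := Finset.single_le_sum (f := fun w : ℚˣ => 4 * ((w : ℚ).num * (w : ℚ).den).natAbs)
            (fun j _ => Nat.zero_le _) hw
          omega
        · refine ⟨Gs, ∑ w ∈ Gs, 4 * ((w : ℚ).num * (w : ℚ).den).natAbs, fun _ =>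
            ⟨hGs, fun w hw => ?_, fun h => absurd h hneg⟩⟩
          exact Finset.single_le_sum (f := fun w : ℚˣ => 4 * ((w : ℚ).num * (w : ℚ).den).natAbs)
            (fun j _ => Nat.zero_le _) hw
      · exact ⟨∅, 0, fun h => absurd h hW⟩
    choose Gs D hGD using hgen
    have h2f : Nat.factorization 2 2 = 1 := Nat.Prime.factorization_self Nat.prime_two
    obtain ⟨S, hS⟩ := hE3 2 (by norm_num) 0 (by
      intro i _ l hl hl2 hlm hcon
      have h1 : l ∣ Nat.gcd (m i) (l ^ (Nat.factorization 2 l + 1)) :=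
        Nat.dvd_gcd hlm (dvd_pow_self l (by omega))
      have h2 : a i + 1 ≡ 1 + 1 [MOD l] := (hcon.of_dvd h1).add_right 1
      rw [ha1] at h2
      have h3 : l ∣ 2 := (h2.dvd_iff dvd_rfl).1 hlm
      exact hl2 ((Nat.prime_dvd_prime_iff_eq hl Nat.prime_two).1 h3)) F
      (fun W hW => ⟨(hF W hW).1, (hF W hW).2, Or.inr ⟨0, by
        intro hcon
        have h1 : m 0 = 24 := by rw [hm]; rfl
        have h2 : a 0 = 23 := by rw [ha, h1]
        rw [h1, h2, h2f] at hcon
        revert hcon
        decide⟩⟩) (M + F.sup D)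
    refine ⟨S, fun A => ?_⟩
    obtain ⟨N, hNA, hN⟩ := (frequently_atTop.1 hS) A
    refine ⟨N, hNA, hN.trans ?_⟩
    have hl : 0 ≤ Real.log N := Real.log_natCast_nonneg N
    apply mul_le_mul_of_nonneg_left _ (by positivity)
    norm_cast
    refine Pool.Agent.U289.GX.cnt_le_card fun n hn h => ?_
    simp only [mem_filter]
    refine ⟨hn, ?_, fun p hp hpp => ?_⟩
    · convert h.1
    obtain ⟨h1, h2⟩ := h.2 p hp hpp
    have h3 : m (M + F.sup D) ∣ p + 1 := by
      have h4 : p + 1 ≡ a (M + F.sup D) + 1 [MOD m (M + F.sup D)] := h1.add_right 1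
      rw [ha1] at h4
      exact (h4.dvd_iff dvd_rfl).2 dvd_rfl
    have hd : ∀ x : ℕ, 0 < x → x ≤ M + F.sup D + 4 → x ∣ p + 1 := by
      intro x hx0 hx
      refine Dvd.dvd.trans ?_ h3
      rw [hm]
      exact Nat.dvd_factorial hx0 hx
    have hnd : ∀ w : ℚˣ, 0 < ((w : ℚ).num * (w : ℚ).den).natAbs := by
      intro w
      rw [Int.natAbs_pos]
      have h1 : (w : ℚ).num ≠ 0 := Rat.num_ne_zero.2 w.ne_zero
      have h2 := (w : ℚ).den_nz
      exact mul_ne_zero h1 (by exact_mod_cast h2)
    refine ⟨hd M hM (by omega), fun W hW => ?_⟩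
    obtain ⟨g1, g2, g3⟩ := hGD W hW
    have hDs : D W ≤ F.sup D := Finset.le_sup (f := D) hW
    obtain ⟨k1, k2⟩ := Pool.Agent.U289.GX.index_val p hpp W (h2 W hW).1 (h2 W hW).2 (Gs W) g1
      (fun w hw => hd _ (by have := hnd w; omega) (by have := g2 w hw; omega)) (hd 4 (by norm_num) (by omega))
      (fun hex => by
        obtain ⟨w, hw, hwn, hwD⟩ := g3 hex
        exact ⟨w, hw, hwn, hd _ (by have := hnd w; omega) (by omega)⟩)
    exact ⟨Pool.Agent.R498.MX.val_zero p hpp W (h2 W hW).1, k1, k2⟩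

end Pool.Agent.Results.MP_48b1c3_nt.OneExceptionalSet
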